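import Pool.Agent.Helper38.FRX.Goals

/-!
# Fan-Raspaud under a light-cut condition: from the colouring to the graph

Adapted from `Pool.Agent.Helper55.FR.Final`.
-/

set_option autoImplicit false

namespace Pool.Agent.Helper38.FRX

open Finset Pool.Agent.Helper55.FR

/-- The number of the edges of `F` leaving `S`. -/
theorem light_card {V : Type} [Fintype V] [DecidableEq V] (G : SimpleGraph V)
    [DecidableRel G.Adj] (M : G.Subgraph) [DecidableRel M.Adj] (n : Equiv.Perm V) (m : V → V)
    (hC : Cub n m) (hadj : ∀ x y, G.Adj x y ↔ adj n m x y) (hM : ∀ x y, M.Adj x y ↔ y = m x)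
    (S : Finset V) :
    ((S ×ˢ Sᶜ).filter fun p => G.Adj p.1 p.2 ∧ ¬ M.Adj p.1 p.2).card = 2 * dF n S := by
  have hA : ((S ×ˢ Sᶜ).filter fun p => G.Adj p.1 p.2 ∧ ¬ M.Adj p.1 p.2) =
      (S.filter fun x => n x ∉ S).image (fun x => (x, n x)) ∪
      ((univ.filter fun x => x ∉ S ∧ n x ∈ S)).image (fun x => (n x, x)) := by
    ext p
    obtain ⟨a, b⟩ := p
    simp only [mem_filter, mem_product, mem_compl, mem_union, mem_image, mem_univ, true_and,
      Prod.mk.injEq]
    constructor
    · rintro ⟨⟨ha, hb⟩, hG, hm⟩
      rw [hM] at hm
      rw [hadj] at hG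
      rcases hG with h | h | h
      · left
        exact ⟨a, ⟨ha, by rw [← h]; exact hb⟩, rfl, h.symm⟩
      · right
        exact ⟨b, ⟨hb, by rw [← h]; exact ha⟩, h.symm, rfl⟩
      · exact absurd h hm
    · rintro (⟨x, ⟨hx, hnx⟩, rfl, rfl⟩ | ⟨x, ⟨hx, hnx⟩, rfl, rfl⟩)
      · refine ⟨⟨hx, hnx⟩, ?_, ?_⟩
        · rw [hadj]
          exact Or.inl rfl
        · rw [hM]
          exact hC.nm x
      · refine ⟨⟨hnx, hx⟩, ?_, ?_⟩
        · rw [hadj]
          exact Or.inr (Or.inl rfl)
        · rw [hM]
          intro h
          apply hC.nm x
          have h2 := congrArg m h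
          rw [hC.mm] at h2
          exact h2.symm
  rw [hA, card_union_of_disjoint, card_image_of_injective, card_image_of_injective]
  · have h1 : (univ.filter fun x => x ∉ S ∧ n x ∈ S).card = dF n S := by
      have h3 : (univ.filter fun x => n x ∈ S).card = S.card := by
        have h : (univ.filter fun x => n x ∈ S) = S.image n.symm := by
          ext x
          simp only [mem_filter, mem_univ, true_and, mem_image]
          constructor
          · intro hx
            exact ⟨n x, hx, by simp⟩
          · rintro ⟨y, hy, rfl⟩
            simpa using hy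
        rw [h, card_image_of_injective _ n.symm.injective]
      have h4 : (univ.filter fun x => n x ∈ S).card =
          (univ.filter fun x => x ∉ S ∧ n x ∈ S).card + (S.filter fun x => n x ∈ S).card := by
        rw [← card_union_of_disjoint]
        · congr 1
          ext x
          simp only [mem_filter, mem_univ, true_and, mem_union]
          tauto
        · rw [disjoint_left]
          intro x hx hx'
          simp only [mem_filter, mem_univ, true_and] at hx hx'
          exact hx.1 hx'.1
      have h2 : S.card = (S.filter fun x => n x ∈ S).card + dF n S := by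
        unfold dF
        exact (card_filter_add_card_filter_not (s := S) (fun x => n x ∈ S)).symm
      omega
    rw [h1]
    unfold dF
    omega
  · intro x y hxy
    simp only [Prod.mk.injEq] at hxy
    exact hxy.2
  · intro x y hxy
    simp only [Prod.mk.injEq] at hxy
    exact hxy.1
  · rw [disjoint_left]
    intro p hp hp'
    simp only [mem_image, mem_filter, mem_univ, true_and] at hp hp'
    obtain ⟨x, _, rfl⟩ := hp
    obtain ⟨y, _, hy⟩ := hp'
    simp only [Prod.mk.injEq] at hy
    apply hC.nn x
    rw [← hy.2, hy.1]

theorem finc (hmain : MaincStmt) (hori : OriStmt) (hifx : IfxStmt) (hcyc : CycStmt) :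
    FincStmt := by
  intro h lam r h0 h1 hr hg V _ _ G _ hreg hexp M _ hM hlight
  obtain ⟨n, m, hC, hadj, hMm⟩ := hori V G hreg M hM
  have hE : Exp n m h := by
    intro S hS
    have := hexp S hS
    rw [hifx V G n m hC hadj S] at this
    push_cast at this
    exact this
  have hcore : ∀ K S : Finset V, Core n m K → K ⊆ S → ¬ (G.induce (S : Set V)).IsAcyclic := by
    intro K S hK hKS
    refine hcyc V G K S hK.1 ?_ hKS
    intro x hx
    have := hK.2 x hx
    have he : (K.filter fun y => G.Adj x y) = (K.filter fun y => adj n m x y) := by
      apply Finset.filter_congr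
      intro y _
      exact hadj x y
    rw [he]
    exact this
  have hL : Lig n m lam := by
    intro S K K' hK hK' hKS hd hdF
    have h2 := hlight S (hcore K S hK hKS) (hcore K' Sᶜ hK' (by
      intro x hx
      rw [mem_compl]
      exact disjoint_right.1 hd hx)) (by
      rw [light_card G M n m hC hadj hMm S]
      omega)
    rw [hifx V G n m hC hadj S] at h2
    push_cast at h2
    exact h2
  obtain ⟨c, hc1, hc2⟩ := hmain h lam r h0 h1 hr hg V n m hC hE hL
  choose q hq1 hq2 hq3 using hc2
  have hadj' : ∀ i x, G.Adj x (q i x) := by
    intro i x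
    rw [hadj]
    rcases hq3 i x with h | h | h
    · exact Or.inl h
    · exact Or.inr (Or.inl h)
    · exact Or.inr (Or.inr h.1)
  let N : Fin r → G.Subgraph := fun i =>
    { verts := Set.univ
      Adj := fun x y => y = q i x
      adj_sub := by
        intro x y hxy
        rw [hxy]
        exact hadj' i x
      edge_vert := by
        intro x y _
        exact Set.mem_univ x
      symm := ⟨by
        intro x y hxy
        show x = q i y
        rw [hxy, hq1]⟩ }
  refine ⟨N, ?_, ?_⟩
  · intro i
    rw [SimpleGraph.Subgraph.isPerfectMatching_iff]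
    intro v
    exact ⟨q i v, rfl, fun y hy => hy⟩
  · intro i j hij e he
    obtain ⟨heM, hei, hej⟩ := he
    induction e with
    | _ x y =>
      rw [SimpleGraph.Subgraph.mem_edgeSet] at heM hei hej
      rw [hMm] at heM
      have e1 : y = q i x := hei
      have e2 : y = q j x := hej
      have key : ∀ k, y = q k x → c x = k := by
        intro k hk
        rcases hq3 k x with h | h | h
        · exfalso
          rw [← hk, heM] at h
          exact hC.nm x h.symm
        · exfalso
          rw [← hk, heM] at h
          have := hC.nm (m x)
          rw [hC.mm] at this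
          exact this h.symm
        · simpa using h.2
      exact hij ((key i e1).symm.trans (key j e2))

end Pool.Agent.Helper38.FRX
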