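import Pool.Agent.Helper55.FR.GoalsA
import Pool.Agent.Helper55.FR.GoalsB

/-!
# Fan-Raspaud under a light-cut condition: goals

Project FRX strengthens project FR (`Pool.Agent.Helper55.FR`). The girth condition is replaced by a
lower bound `lam` for the number of edges of the cuts which separate two cycles and which contain at
most two edges of the 2-factor `F`. The counting of the labellings uses, instead of blocks of `F`, the
parts of a partition of the vertices into subtrees of a spanning tree which has few special edges.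

Notation in the docstrings: `b = |Bad m f|`; `adj`, `hadj`, `Con`, `Rooted`, `dF`, `dM`, `Lab`, `flip`,
`spc`, `Bar`, `Loc`, `Pre`, `Fit`, `Full`, `Lcl`, `Glo`, `Ref` are those of
`Pool.Agent.Helper55.FR.Defs`. The number `g` of `Bar`, `Loc`, `Pre` is `0` here (no condition), the
number `g` of `Lcl`, `Glo`, `Ref` is a number with `2 * h * g <= lam`.
-/

namespace Pool.Agent.Helper38.FRX

open Finset Pool.Agent.Helper55.FR

section

variable {V : Type} [Fintype V] [DecidableEq V]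

/-- A core: a nonempty set in which every vertex has two neighbours. -/
def Core (n : Equiv.Perm V) (m : V → V) (K : Finset V) : Prop :=
  K.Nonempty ∧ ∀ x ∈ K, 2 ≤ (K.filter fun y => adj n m x y).card

/-- A cut which separates two cores and contains at most two edges of `F` has at least `lam`
edges. -/
def Lig (n : Equiv.Perm V) (m : V → V) (lam : ℝ) : Prop :=
  ∀ S K K' : Finset V, Core n m K → Core n m K' → K ⊆ S → Disjoint S K' → dF n S ≤ 1 →
    lam ≤ 2 * dF n S + dM m S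

/-- The special matching edges: `m x` has not the label which belongs to `f x`. -/
def VM (m : V → V) (f : V → Lab) : Finset V := univ.filter fun x => f (m x) ≠ flip (f x)

/-- The matching edges with exactly one end in `D`. -/
def Ym (m : V → V) (D : Finset V) : Finset V := univ.filter fun x => ¬ (x ∈ D ↔ m x ∈ D)

/-- Barriers whose large components are cores. -/
def BarC (n : Equiv.Perm V) (m : V → V) (B T I : Finset V) (Q : Finset (Finset V)) : Prop :=
  Bar n m B 0 T I Q ∧ ∀ K ∈ Q, Core n m K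

/-- Local barriers whose large components are cores, with other cores disjoint from them. -/
def LocC (n : Equiv.Perm V) (m : V → V) (B T I : Finset V) (Q : Finset (Finset V)) : Prop :=
  Loc n m B 0 T I Q ∧ ∀ K ∈ Q, Core n m K ∧ ∃ K', Core n m K' ∧ Disjoint K K'

/-- Local structures with few special matching edges. -/
def LclC (n : Equiv.Perm V) (m : V → V) (h : ℝ) (g : ℕ) (f : V → Lab) : Prop :=
  Lcl n m h g f ∧ (VM m f).card ≤ 7 * (Bad m f).card

/-- A partition of the vertices into the parts `{y | κ y = κ x}`; every part is a rooted tree with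
root `κ x`, `par` is the parent, `dep` decreases towards the root. -/
structure Prt (r : V → V → Prop) (L : ℕ) (κ par : V → V) (dep : V → ℕ) : Prop where
  idem : ∀ x, κ (κ x) = κ x
  kp : ∀ x, κ (par x) = κ x
  rp : ∀ x, x ≠ κ x → r (par x) x
  dp : ∀ x, x ≠ κ x → dep (par x) < dep x
  up : ∀ x, (univ.filter fun y => κ y = κ x).card ≤ 4 * L
  lo : ∀ x, L ≤ (univ.filter fun y => κ y = κ x).card ∨ ∀ y, κ y = κ x

/-- The set of the non-roots in the parts of `P` where the label does not follow from the label of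
the parent. -/
def Ct (κ par : V → V) (P : Finset V) (f : V → Lab) : Finset V :=
  univ.filter fun x => κ x ∈ P ∧ x ≠ κ x ∧ f x ≠ flip (f (par x))

end

/-! ### Part A: barriers -/

/-- **BARC**. Proof (may assume COMP, TUT): the proof of BAR (`Pool.Agent.Helper94.FR.bar`,
`Helper94/FR/BAR.lean`) with `g = 0`; its step (b) shows that in every component `K` with
`|K| ≠ 1` every vertex has at least two neighbours in `K`, that is `Core n m K`. -/
def BarcStmt : Prop := ∀ (V : Type) [Fintype V] [DecidableEq V] (n : Equiv.Perm V) (m : V → V)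
  (B : Finset V), Cub n m → (∀ x, x ∈ B ↔ m x ∈ B) → ¬ PMf (hadj n m B) → ∃ T I Q, BarC n m B T I Q

/-- **TWO**. A barrier has at least two large components, and local barriers come with cores.
Proof (may assume IDF, CUT, LOCB in the form of its proof): (a) for a barrier `(T, I, Q)` take a
fitting `f` by CUT; IDF gives `|I| ≤ |T|`, so `|Q| ≥ |T| + 2 - |I| ≥ 2`, and for `K ∈ Q` there is
`K' ∈ Q`, `K' ≠ K`, disjoint from `K`. (b) the local barrier constructed in
`Pool.Agent.Helper42.FR.locb` has `Q' = Q.filter (· ⊆ S)`, a subset of `Q`. -/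
def LocbcStmt : Prop := ∀ (V : Type) [Fintype V] [DecidableEq V] (n : Equiv.Perm V) (m : V → V)
  (B T I : Finset V) (Q : Finset (Finset V)), Cub n m → (∀ x, x ∈ B ↔ m x ∈ B) →
    BarC n m B T I Q → (∀ K ∈ Q, ∃ K' ∈ Q, K' ≠ K) ∧
      (2 * (T.card + I.card) ≤ Fintype.card V → ∃ T' I' Q', LocC n m B T' I' Q')

/-- **VMB**. The number of the special matching edges. Proof: let `x ∈ VM m f` and look at the labels
`(f x, f (m x))`. They are not `(T, I)`, `(I, T)`, `(K, K)`, `(L, L)`, `(O, O)`. `(T, T)`: `x ∈ TT`.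
`(I, I)`, `(I, K)`, `(I, L)`, `(I, O)`, `(K, L)`, `(K, O)`, `(L, O)` and the reversed ones: `x ∈ Bad`.
`(K, T)`, `(L, T)`: `x ∈ MK`; `(T, K)`, `(T, L)`: `m x ∈ MK`. `(T, O)`: `x` is in the last set;
`(O, T)`: `m x` is. So `VM ⊆ Bad ∪ TT ∪ MK ∪ m(MK) ∪ Out ∪ m(Out)`. -/
def VmbStmt : Prop := ∀ (V : Type) [Fintype V] [DecidableEq V] (m : V → V) (f : V → Lab),
  (∀ v, m (m v) = v) → (VM m f).card ≤ (Bad m f).card + (TT m f).card + 2 * (MK m f).card +
    2 * (univ.filter fun x => f x ≠ Lab.O ∧ f (m x) = Lab.O).card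

/-- **LOCNC**. Proof (may assume IDF, SKF, IDM, CUT, FIT, VMB): as LOCN
(`Pool.Agent.Helper24.FR.locn`). Let `f` be as in CUT, `b`, `F = |Full| ≤ 2 b`, `p = |Q|`,
`s = |Spc n f|`, `φ = |T| - |I| ≤ p - 1`, `s ≤ 2 φ` (IDF), `out` the last term of IDM,
`∑ dM K + tm + out = F + φ` with `tm = |T.filter (m x ∈ T)|`. NEW: by SKF
`∑ 2 dF K ≤ s ≤ 2 (p - 1)`, so `∑ dF K ≤ p - 1` and at most `(p - 1) / 2` members of `Q` have
`dF K ≥ 2`; so at least `p / 2` members have `dF K ≤ 1`, and for these `lam ≤ 2 dF K + dM K` by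
`Lig` with `S = K` and the core `K'`. So `lam * p / 2 ≤ ∑ (2 dF K + dM K) ≤ s + F + φ ≤ F + 3 p`, and
with `2 h g ≤ lam`: `h g p ≤ F + 3 p`, as in LOCN. The rest as in LOCN (`h |K| ≤ 2 dF K + dM K` by
`Exp`). Finally VMB: `TT m f` is `T.filter (m x ∈ T)`, `|MK m f| ≤ ∑ dM K` (a vertex `x ∈ K`, `m x` not
in a large component), the last set of VMB is the set of the last term of IDM (`Ws f` is
`T ∪ I ∪ Q.biUnion id`). So `|TT| + |MK| + |Out| ≤ F + φ ≤ F + p ≤ (22/21) F ≤ 3 b` as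
`21 p ≤ F`, and `|VM| ≤ b + 2 * 3 b`. -/
def LocncStmt : Prop := ∀ (V : Type) [Fintype V] [DecidableEq V] (n : Equiv.Perm V) (m : V → V)
  (h lam : ℝ) (g : ℕ) (B T I : Finset V) (Q : Finset (Finset V)), Cub n m → 0 < h → h ≤ 1 →
    24 ≤ h * g → 2 * (h * g) ≤ lam → Exp n m h → Lig n m lam → (∀ x, x ∈ B ↔ m x ∈ B) →
      LocC n m B T I Q → ∃ f, LclC n m h g f ∧ Disjoint (Bad m f) B

/-- **GLONC**. Proof (may assume IDF, SKF, IDM, CUT, FIT): as GLON
(`Pool.Agent.Helper90.FR.glon`), with the new estimate of LOCNC for `h g p` (now `φ ≤ p - 2`; the other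
core is another member of `Q`, by the second to last hypothesis). -/
def GloncStmt : Prop := ∀ (V : Type) [Fintype V] [DecidableEq V] (n : Equiv.Perm V) (m : V → V)
  (h lam : ℝ) (g : ℕ) (B T I : Finset V) (Q : Finset (Finset V)), Cub n m → 0 < h → h ≤ 1 →
    24 ≤ h * g → 2 * (h * g) ≤ lam → Exp n m h → Lig n m lam → (∀ x, x ∈ B ↔ m x ∈ B) →
      BarC n m B T I Q → (∀ K ∈ Q, ∃ K' ∈ Q, K' ≠ K) →
        Fintype.card V < 2 * (T.card + I.card) →
          ∃ f, Fit T I Q f ∧ Glo n m h g f ∧ Disjoint (Bad m f) B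

/-- **GEXC**. Proof (may assume UNB, GLONC, REF, DIF): the proof of GEX
(`Pool.Agent.Helper22.FR.gex`) with `BarC` instead of `Bar`; the undoing UNB (with `g = 0`) replaces `Q`
by a subset of it, so `BarC` is kept. -/
def GexcStmt : Prop := ∀ (V : Type) [Fintype V] [DecidableEq V] (n : Equiv.Perm V) (m : V → V)
  (h lam : ℝ) (g : ℕ) (f0 : V → Lab) (B : Finset V), Cub n m → 0 < h → h ≤ 1 → 24 ≤ h * g →
    2 * (h * g) ≤ lam → Exp n m h → Lig n m lam → Glo n m h g f0 →
    (∀ f, Glo n m h g f → (Bad m f0).card ≤ (Bad m f).card) →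
    (∀ x, x ∈ B ↔ m x ∈ B) → (∀ T I Q, BarC n m B T I Q → ∀ K ∈ Q, ∃ K' ∈ Q, K' ≠ K) →
    (∃ T I Q, BarC n m B T I Q) →
    (∀ T I Q, BarC n m B T I Q → Fintype.card V < 2 * (T.card + I.card)) →
      ∃ f ρ, (ρ = f0 ∨ ρ = Pool.Agent.Helper55.FR.flip ∘ f0) ∧ Glo n m h g f ∧ Disjoint (Bad m f) B ∧
        Rooted (adj n m) (Zs n m ρ) (Dif ρ f) ∧ h * (Dif ρ f).card ≤ 16 * (Bad m f).card

/-! ### Part B: counting -/

/-- **TRE**. A cheap connecting set of matching edges. Proof: a class map is a map `c : V → V` with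
`c (n x) = c x`; its classes are the sets `{x | c x = s}`, `s ∈ univ.image c`, let `N` be their number.
A vertex is crossing if `c (m x) ≠ c x`. CLAIM: for every class map `c` (with `V` nonempty) and every
`w ≥ 0` with `w (m x) = w x` there is an `m`-invariant set `E` with `|E| + 2 ≤ 2 N`,
`lam * ∑ x ∈ E, w x ≤ 2 * ∑ x crossing, w x`, and such that every nonempty `S` which is closed
under `E` (`x ∈ S`, `x ∈ E` imply `m x ∈ S`) and is a union of classes (`x ∈ S`, `c y = c x` imply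
`y ∈ S`) is everything. Induction on `N`. `N = 1`: `E = ∅`. `N ≥ 2`: every class `S` is nonempty, not
everything, and `n`-invariant, so `lam ≤ dM m S`; summing over the classes, there are at least
`N * lam` crossing vertices. Let `x0` be a crossing vertex with `w0 = w x0` minimal. Merge the classes
of `x0` and `m x0`: `c' x = c (m x0)` if `c x = c x0`, and `c' x = c x` otherwise; it has `N - 1`
classes. Let `w' x = w x - w0` for crossing `x` (for `c`) and `w' x = 0` otherwise; the crossing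
vertices of `c'` are crossing for `c`. Take `E'` for `c'`, `w'`; one may replace `E'` by its crossing
vertices for `c'`, or use `|E'| + 2 ≤ 2 (N - 1)` and `w ≤ w' + w0` on the crossing vertices: to make
the last point easy add to the CLAIM that all elements of `E` are crossing. Let
`E = E' ∪ {x0, m x0}`. `∑ E w ≤ ∑ E' w' + w0 (|E'| + 2)`, so
`lam * ∑ E w ≤ 2 ∑ (crossing for c') w' + 2 (N - 1) lam w0`, and
`2 ∑ (crossing for c) w ≥ 2 ∑ (crossing for c) w' + 2 N lam w0`. Closedness: a union `S` of classes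
of `c` closed under `E` contains with `x0` also `m x0` and conversely (`E` is invariant, and
`m (m x0) = x0`), so it is a union of classes of `c'`.
For the theorem take for `c` the map which sends `x` to a fixed representative of its orbit under `n`
(`Quotient.out` of `Equiv.Perm.SameCycle.setoid n`, say), so that `n`-invariant sets are the unions of
classes: a set `S` closed under `hadj n m E` is closed under `n` and `n.symm`. -/
def TreStmt : Prop := ∀ (V : Type) [Fintype V] [DecidableEq V] (n : Equiv.Perm V) (m : V → V)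
  (lam : ℝ), (∀ v, m (m v) = v) → 0 < lam →
    (∀ S : Finset V, S.Nonempty → S ≠ univ → (∀ x, x ∈ S ↔ n x ∈ S) → lam ≤ dM m S) →
    ∀ w : V → ℝ, (∀ x, 0 ≤ w x) → (∀ x, w (m x) = w x) →
      ∃ E : Finset V, (∀ x, x ∈ E ↔ m x ∈ E) ∧ Con (hadj n m E) univ ∧
        lam * ∑ x ∈ E, w x ≤ 2 * ∑ x, w x

/-- **RTR**. A rooted spanning tree. Proof: consider the sets `S' ⊆ S` with `s ∈ S'` for which there
are `par`, `dep` with the property (for `S'` instead of `S`); `{s}` is one; take a maximal one. If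
`S' ≠ S` then by `Con` (`S'` is not closed) there are `x ∈ S'`, `y ∈ S`, `y ∉ S'`, `r x y`; put
`par y = x`, `dep y = dep x + 1`. -/
def RtrStmt : Prop := ∀ (V : Type) [Fintype V] [DecidableEq V] (r : V → V → Prop) (S : Finset V)
  (s : V), s ∈ S → Con r S → ∃ (par : V → V) (dep : V → ℕ), ∀ x ∈ S, x ≠ s →
    par x ∈ S ∧ r (par x) x ∧ dep (par x) < dep x

/-- **CHP**. Cutting off a small connected piece. Proof (may assume COMP): among all `S ⊆ W` with
`L ≤ |S|`, `Con r S`, `Con r (W \ S)` (`W` itself is one: `Con r ∅`) take one with `|S|` minimal. It is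
nonempty. Choose `v ∈ S`; if `W \ S` is nonempty choose `v` adjacent to a vertex of `W \ S` (by
`Con r W`, the set `S` is not closed in `W`). Let `Q` be the components of `r` off
`T = (univ \ S) ∪ {v}` (COMP). For `K ∈ Q`: `K ⊆ S`, `v ∉ K`; `K` is adjacent to `v`, since otherwise
`K` is closed in `S`, so `K = S`. So `|Q| ≤ 3` (choose for each `K ∈ Q` a neighbour of `v` in it).
`Con r (W \ K)`: let `R ⊆ W \ K` be closed in `W \ K` and `v ∉ R`; then `R` is empty: `R ∩ (W \ S)` is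
closed in `W \ S`, so it is empty or `W \ S`, and in the second case (if nonempty) `R` contains the
neighbour of `v`, so `v`; the same for `R ∩ K'`, `K' ∈ Q`, `K' ≠ K`; and `W \ K` is the union of
`W \ S`, `{v}` and the other `K'`. For a nonempty closed `R ⊆ W \ K` the set `(W \ K) \ R` is closed
too (`r` is symmetric); one of them does not contain `v`, so it is empty; it is not `R` (nonempty), so
if `v ∉ R` contradiction, otherwise `(W \ K) \ R = ∅`. So by minimality `|K| < L` for all `K ∈ Q`, and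
`|S| ≤ 1 + 3 (L - 1)`. -/
def ChpStmt : Prop := ∀ (V : Type) [Fintype V] [DecidableEq V] (r : V → V → Prop) (L : ℕ)
  (W : Finset V), (∀ x y, r x y → r y x) → (∀ x, ∃ N : Finset V, N.card ≤ 3 ∧ ∀ y, r x y → y ∈ N) →
    1 ≤ L → L ≤ W.card → Con r W →
      ∃ S ⊆ W, L ≤ S.card ∧ S.card ≤ 3 * L ∧ Con r S ∧ Con r (W \ S)

/-- **PRT**. Proof (may assume RTR, CHP): CLAIM: for every nonempty `W` with `Con r W` there is
`κ : V → V` such that for all `x ∈ W`: `κ x ∈ W`, `κ (κ x) = κ x`, the part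
`{y ∈ W | κ y = κ x}` is connected, has at most `4 L` elements, and has at least `L` elements or is
`W`. Induction on `|W|`: if `|W| ≤ 4 L` let `κ` be constant. Otherwise take `S` from CHP, use the claim
for `W \ S` (it has more than `L` elements, so all its parts have at least `L` elements) and let `κ` be
constant on `S`. Apply the claim to `W = univ` (if `V` is empty everything is trivial) and RTR to every
part with root `κ x`: for each `s` with `κ s = s` choose `par_s`, `dep_s` and let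
`par x = par_(κ x) x` for `x ≠ κ x`, `par x = x` for `x = κ x`, `dep x = dep_(κ x) x`. -/
def PrtStmt : Prop := ∀ (V : Type) [Fintype V] [DecidableEq V] (r : V → V → Prop) (L : ℕ),
  (∀ x y, r x y → r y x) → (∀ x, ∃ N : Finset V, N.card ≤ 3 ∧ ∀ y, r x y → y ∈ N) → 1 ≤ L →
    Con r univ → ∃ κ par dep, Prt r L κ par dep

/-- **TCHC**. The number of the parts which meet `D`. Proof: let `x ∈ D`. If the part of `x` is
contained in `D` then it has at least `L` elements or it is everything (then there is only one part).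
The parts are disjoint, so `L *` (number of the parts of the first kind) is at most `|D|`. If the part
is not contained in `D` there is a non-root `y` in the part with exactly one of `y`, `par y` in `D`
(otherwise by induction on `dep` all elements of the part are on the same side as the root). By `rp`
either `y = n (par y)`, then `par y ∈ Xr n D`, so `y ∈ (Xr n D).image n`; or `par y = n y`, then
`y ∈ Xr n D`; or `y = m (par y)`, `par y ∈ E`, then `y ∈ E ∩ Ym m D`. Different parts give different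
`y`. -/
def TchcStmt : Prop := ∀ (V : Type) [Fintype V] [DecidableEq V] (n : Equiv.Perm V) (m : V → V)
  (E : Finset V) (L : ℕ) (κ par : V → V) (dep : V → ℕ), (∀ v, m (m v) = v) →
    (∀ x, x ∈ E ↔ m x ∈ E) → Prt (hadj n m E) L κ par dep → ∀ D : Finset V,
      L * (D.image κ).card ≤ D.card + L * (1 + 2 * (Xr n D).card + (E ∩ Ym m D).card)

/-- **CUTC**. The number of the cut edges of the trees. Proof: let `x ∈ Ct κ par P f`, `y = par x`. By
`rp` `hadj n m E y x`: `x = n y`, and `f x ≠ flip (f y)`, that is `spc (f y) (f (n y))` (`spc a b` is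
equivalent to `b ≠ flip a`), so `y ∈ Spc n f` and `x ∈ (Spc n f).image n`; or `y = n x`, then
`f y ≠ flip (f x)` (`flip` is an involution), `x ∈ Spc n f`; or `x = m y`, `y ∈ E`, then `x ∈ E` and
`f (m x) ≠ flip (f x)`, so `x ∈ E ∩ VM m f`. -/
def CutcStmt : Prop := ∀ (V : Type) [Fintype V] [DecidableEq V] (n : Equiv.Perm V) (m : V → V)
  (E : Finset V) (L : ℕ) (κ par : V → V) (dep : V → ℕ), (∀ v, m (m v) = v) →
    (∀ x, x ∈ E ↔ m x ∈ E) → Prt (hadj n m E) L κ par dep → ∀ (P : Finset V) (f : V → Lab),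
      (Ct κ par P f).card ≤ 2 * (Spc n f).card + (E ∩ VM m f).card

/-- **SUBC**. Counting small subsets. Proof: with `t = 1/(4 L)`, the number is at most
`∑ C ⊆ S, t ^ (|C| - v) ≤ t ^ (- v) * (1 + t) ^ |S|` and `(1 + t) ^ (4 L k) ≤ exp k ≤ 3 ^ k`.
(`∑ C ∈ S.powerset, t ^ |C| = (1 + t) ^ |S|`: `Finset.sum_pow_mul_eq_add_pow` or
`Finset.prod_one_add`.) -/
def SubcStmt : Prop := ∀ (V : Type) [DecidableEq V] (S : Finset V) (L k v : ℕ), 1 ≤ L →
  S.card ≤ 4 * L * k →
    ((S.powerset.filter fun C => C.card ≤ v).card : ℝ) ≤ (4 * (L : ℝ)) ^ v * 3 ^ k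

/-- **ENC**. Counting the labellings. Proof (may assume SUBC): the map which sends `f ∈ A` to the triple
of `P = Y f`, `C = Ct κ par P f` and the function `g x = f x` for `x ∈ P ∪ C`, `g x = O` otherwise, is
injective on `A`: let `f`, `f'` have the same triple. If `κ x ∉ P` then `f x = ρ x = f' x`. If
`κ x ∈ P` then `f x = f' x` by induction on `dep x`: for `x = κ x` we have `x ∈ P`; for `x ∈ C` clear;
otherwise `f x = flip (f (par x))`, `f' x = flip (f' (par x))` and `κ (par x) = κ x`. For given `P`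
(`|P| ≤ k`) the set `C` is one of the subsets with at most `v` elements of the set
`{x | κ x ∈ P}`, which has at most `4 L k` elements: at most `(4 L) ^ v * 3 ^ k` (SUBC). For given
`P`, `C` the functions `g` are in `Fintype.piFinset` of `univ` on `P ∪ C` and `{O}` off it: at most
`5 ^ (k + v)`. -/
def EncStmt : Prop := ∀ (V : Type) [Fintype V] [DecidableEq V] (r : V → V → Prop) (L : ℕ)
  (κ par : V → V) (dep : V → ℕ), 1 ≤ L → Prt r L κ par dep → ∀ (ρ : V → Lab)
    (PP : Finset (Finset V)) (A : Finset (V → Lab)) (Y : (V → Lab) → Finset V) (k v : ℕ),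
    (∀ f ∈ A, Y f ∈ PP ∧ (Y f).card ≤ k ∧ (∀ x, κ x ∉ Y f → f x = ρ x) ∧
      (Ct κ par (Y f) f).card ≤ v) →
      (A.card : ℝ) ≤ PP.card * ((4 * (L : ℝ)) ^ v * 3 ^ k) * 5 ^ (k + v)

/-- **CNTC**. Proof (may assume PRT, CON, ENC, TCHC, CUTC): `hadj n m E` is symmetric (`E` is invariant)
and every vertex has at most 3 neighbours. Take `κ`, `par`, `dep` from PRT. Let `R s t` mean that there
are `x`, `y` with `κ x = s`, `κ y = t`, `adj n m x y`; it is symmetric, and for given `s` there are at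
most `3 * 4 L = 12 L` such `t`. For `f ∈ A` the set `Y f = (D f).image κ` is rooted for `R` and
`Z.image κ`: for `S ⊆ Y f` nonempty and closed in `Y f` the set `{x ∈ D f | κ x ∈ S}` is nonempty and
closed in `D f`, so it contains some `z ∈ Z`. By TCHC `|Y f| ≤ k`. Let `PP` be the set of all `Y` with
`|Y| ≤ k` which are rooted for `R` and `Z.image κ`. By CON with `Δ = 12 L`:
`|PP| * (1/(48 L)) ^ k ≤ (1 + 1/(24 L)) ^ |Z|` (`1/(48 L) ≤ 1`). By CUTC `|Ct| ≤ 2 u + e ≤ v`. If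
`κ x ∉ Y f` then `x ∉ D f`. ENC gives
`|A| ≤ (48 L) ^ k (1 + 1/(24 L)) ^ |Z| (4 L) ^ v 3 ^ k 5 ^ (k + v)`, at most the claimed number. -/
def CntcStmt : Prop := ∀ (V : Type) [Fintype V] [DecidableEq V] (n : Equiv.Perm V) (m : V → V)
  (E : Finset V) (L : ℕ), Cub n m → 1 ≤ L → (∀ x, x ∈ E ↔ m x ∈ E) → Con (hadj n m E) univ →
    ∀ (ρ : V → Lab) (Z : Finset V) (A : Finset (V → Lab)) (D : (V → Lab) → Finset V)
      (k u e v d : ℕ), 2 * u + e ≤ v → d + L * (1 + v) ≤ L * k →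
      (∀ f ∈ A, (∀ x, x ∉ D f → f x = ρ x) ∧ Rooted (adj n m) Z (D f) ∧ (D f).card ≤ d ∧
        (Spc n f).card ≤ u ∧ (Xr n (D f)).card ≤ u ∧ (E ∩ VM m f).card ≤ e ∧
        (E ∩ Ym m (D f)).card ≤ e) →
        (A.card : ℝ) ≤ (864 * (L : ℝ)) ^ k * (24 * (L : ℝ)) ^ v *
          (1 + 1 / (24 * (L : ℝ))) ^ Z.card

/-- **AVG**. Proof (may assume TRE, CNTC): let `w x = ∑ f ∈ A, [x ∈ X f]`. TRE gives `E` with
`lam * ∑ f ∈ A, |E ∩ X f| ≤ 2 * ∑ f ∈ A, |X f| ≤ 2 c |A|`. Let `A'` be the set of the `f ∈ A` with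
`lam * |E ∩ X f| ≤ 4 c`; the others are at most half of `A` (each contributes more than `4 c` to
the left hand side; if `c = 0` all `X f` are empty), so `|A| ≤ 2 |A'|`. For `f ∈ A'` both
`E ∩ VM m f` and `E ∩ Ym m (D f)` are contained in `E ∩ X f`, which has at most
`e = v - 2 u` elements, because `lam * |E ∩ X f| ≤ 4 c ≤ lam * (v - 2 u)`. CNTC for `A'`. -/
def AvgStmt : Prop := ∀ (V : Type) [Fintype V] [DecidableEq V] (n : Equiv.Perm V) (m : V → V)
  (L : ℕ) (lam : ℝ), Cub n m → 1 ≤ L → 0 < lam →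
    (∀ S : Finset V, S.Nonempty → S ≠ univ → (∀ x, x ∈ S ↔ n x ∈ S) → lam ≤ dM m S) →
    ∀ (ρ : V → Lab) (Z : Finset V) (A : Finset (V → Lab)) (D X : (V → Lab) → Finset V)
      (k u v d c : ℕ), 2 * u ≤ v → 4 * (c : ℝ) ≤ lam * ((v : ℝ) - 2 * u) →
      d + L * (1 + v) ≤ L * k →
      (∀ f ∈ A, (∀ x, x ∉ D f → f x = ρ x) ∧ Rooted (adj n m) Z (D f) ∧ (D f).card ≤ d ∧
        (Spc n f).card ≤ u ∧ (Xr n (D f)).card ≤ u ∧ (∀ x, x ∈ X f ↔ m x ∈ X f) ∧
        VM m f ⊆ X f ∧ Ym m (D f) ⊆ X f ∧ (X f).card ≤ c) →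
        (A.card : ℝ) ≤ 2 * ((864 * (L : ℝ)) ^ k * (24 * (L : ℝ)) ^ v *
          (1 + 1 / (24 * (L : ℝ))) ^ Z.card)

/-- The numerical condition. -/
def NumPC (h lam : ℝ) (L : ℕ) (θ ε : ℝ) : Prop := ∀ b k v z : ℕ, lam ≤ 9 * b →
  lam * v ≤ 131 * b → h * L * k ≤ 16 * b + h * L * (v + 2) → h * z ≤ 8 * b + 2 →
    2 * ((864 * (L : ℝ)) ^ k * (24 * (L : ℝ)) ^ v * (1 + 1 / (24 * (L : ℝ))) ^ z) * θ ^ b ≤
      ε * (1 - Real.sqrt θ) * Real.sqrt θ ^ b

/-- **NUMC**. Proof: let `X = r / h ≥ 1`, `y = 1 + log X ≥ 1`, `L = ⌈20000 X y⌉`, so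
`20000 X y ≤ L ≤ 20001 X y`, `g = ⌊lam / (2 h)⌋`, so `lam / 2 - 1 ≤ lam / 2 - h ≤ h g ≤ lam / 2`; as
`lam ≥ 10^5` this gives the first three conditions. `θ = 1 - 1/(4r)`, `s = √θ`,
`ℓ = - log s ≥ 1/(8r)` (`- log θ ≥ 1/(4r)`), `1 - s = (1 - θ)/(1 + s) ≥ 1/(8r)`. As `θ ^ b = s ^ (2b)`
it suffices, taking logarithms, that
`log 2 + k log (864 L) + v log (24 L) + z/(24 L) + log (1/(ε (1 - s))) ≤ b/(8r)`.
`log (864 L) ≤ log (864 * 20001) + log X + log y ≤ 16.7 + 2 log X ≤ 17 y` (`y ≤ 1 + X - 1 = X`).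
`v ≤ 131 b/lam`; `k ≤ 16 b/(h L) + v + 2 ≤ 16 b/(h L) + 149 b/lam` as `2 ≤ 18 b/lam`;
`16 b/(h L) * 17 y ≤ 272 b y/(20000 h X y) = 272 b/(20000 r) ≤ b/(73 r)`;
`(149 + 131) (b/lam) * 17 y ≤ 4760 b y/(10^5 r y) ≤ b/(21 r)`;
`z/(24 L) ≤ (8 b + 2)/(24 h L) ≤ 9 b/(24 * 20000 r) ≤ b/(1000 r)` (`b ≥ 2` since `lam ≤ 9 b`);
`log 2 + log (1/(ε (1 - s))) ≤ log (2 * 6 r^2 * 8 r) = log (96 r^3) ≤ 4.6 + 3 log r ≤ 5 y` (`r ≤ X`) and
`5 y ≤ 5 lam/(10^5 r) ≤ 45 b/(10^5 r) ≤ b/(1000 r)`. Sum: `1/73 + 1/21 + 2/1000 ≤ 1/8`. -/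
def NumcStmt : Prop := ∀ (h lam : ℝ) (r : ℕ), 0 < h → h ≤ 1 → 1 ≤ r →
  10 ^ 5 * (r : ℝ) * (1 + Real.log (r / h)) ≤ lam → ∃ L g : ℕ, 1 ≤ L ∧ 24 ≤ h * g ∧
    2 * (h * g) ≤ lam ∧ 49 * lam ≤ 100 * (h * g) ∧ 10 ^ 5 ≤ lam ∧
    NumPC h lam L (1 - 1 / (4 * (r : ℝ))) (1 / (6 * (r : ℝ) ^ 2))

open Classical in
/-- **SMLC**. The sum over the local structures. Proof (may assume AVG, XR): group by
`b = |Bad m f|`; only `b` with `h g ≤ 4 b` occur, so `lam ≤ (400/49) b ≤ 9 b`, `b ≥ 2`. For each such `b`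
apply AVG with `A` the set of the `f` with `|Bad m f| = b`, `ρ = O`, `D = Ws`, `Z = {x, m x}` (`Ws f` is
connected and contains `x`, because `x ∈ Bad m f`, so it is rooted: if `f x = O` then `f (m x) ≠ O` as
`(O, O)` is not bad, so `m x ∈ Ws f`), `X = VM m` (it is invariant under `m` because `flip` is an
involution; `Ym m (Ws f) ⊆ VM m f` because exactly one of `f x`, `f (m x)` is `O`),
`u = ⌊8 b/(h g)⌋` (`Xr n (Ws f) ⊆ Spc n f` by XR), `c = 7 b`, `v = 2 u + ⌈28 b/lam⌉`,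
`d = ⌊6 b/h⌋`, `k = ⌈d/L⌉ + 1 + v`. Then `lam v ≤ 16 b lam/(h g) + 28 b + lam ≤ 70 b` (as
`lam/(h g) ≤ 100/49` and `lam ≤ 9 b`), `h L k ≤ 6 b + h L (v + 2)`, `h |Z| ≤ 2`. By NumPC the part of
the sum is at most `ε (1 - √θ) √θ^b`; sum over `b`. -/
def SmlcStmt : Prop := ∀ (V : Type) [Fintype V] [DecidableEq V] (n : Equiv.Perm V) (m : V → V)
  (h lam : ℝ) (g L : ℕ) (θ ε : ℝ), Cub n m → 0 < h → h ≤ 1 → 24 ≤ h * g → 1 ≤ L →
    49 * lam ≤ 100 * (h * g) → 10 ^ 5 ≤ lam → 0 < θ → θ < 1 → 0 ≤ ε →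
    (∀ S : Finset V, S.Nonempty → S ≠ univ → (∀ x, x ∈ S ↔ n x ∈ S) → lam ≤ dM m S) →
    NumPC h lam L θ ε → ∀ x : V,
      ∑ f ∈ (univ : Finset (V → Lab)).filter (fun f => LclC n m h g f ∧ x ∈ Bad m f),
        θ ^ (Bad m f).card ≤ ε

open Classical in
/-- **SMGC**. The sum over the global structures. Proof (may assume AVG, XR, ZBD, VMB): group by
`b = |Bad m f|` (`b0 ≤ b`, `h g ≤ 4 b`, `lam ≤ 9 b`, `b ≥ 2`); AVG with `D = Dif ρ`, `Z = Zs n m ρ`
(`h |Z| ≤ 8 b0 ≤ 8 b`), `X f = VM m f ∪ VM m ρ`. `|VM m f| ≤ b + |TT| + 2 |MK| ≤ 7 b` by VMB, `noO`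
and cT, so `|X f| ≤ c = 14 b`. `Ym m (Dif ρ f) ⊆ X f`: let exactly one of `x`, `m x` be in
`Dif ρ f`, say `x` (the sets are invariant under `m`); then `f (m x) = ρ (m x)` is `T` or `I`; if `ρ x`
is `K` or `L` then `x ∈ VM m ρ`; otherwise `f x ≠ ρ x`, and if `x` is not in `X f` then
`flip (f x) = f (m x) = ρ (m x) = flip (ρ x)`, a contradiction. If `x ∉ Dif ρ f` then `f x = ρ x`.
`u = ⌊16 b/(h g)⌋` (`|Xr n (Dif ρ f)| ≤ |Spc n f| + |Spc n ρ|` by XR; `ρ` has no `O`),
`v = 2 u + ⌈56 b/lam⌉`, `d = ⌊16 b/h⌋`, `k = ⌈d/L⌉ + 1 + v`. Then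
`lam v ≤ 32 b lam/(h g) + 56 b + lam ≤ (66 + 56 + 9) b`, `h L k ≤ 16 b + h L (v + 2)`. NumPC, sum
over `b`. -/
def SmgcStmt : Prop := ∀ (V : Type) [Fintype V] [DecidableEq V] (n : Equiv.Perm V) (m : V → V)
  (h lam : ℝ) (g L b0 : ℕ) (θ ε : ℝ) (ρ : V → Lab), Cub n m → 0 < h → h ≤ 1 → 24 ≤ h * g →
    1 ≤ L → 49 * lam ≤ 100 * (h * g) → 10 ^ 5 ≤ lam → 0 < θ → θ < 1 → 0 ≤ ε →
    (∀ S : Finset V, S.Nonempty → S ≠ univ → (∀ x, x ∈ S ↔ n x ∈ S) → lam ≤ dM m S) →
    NumPC h lam L θ ε → Ref n m h g b0 ρ → (VM m ρ).card ≤ 7 * b0 →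
      ∑ f ∈ (univ : Finset (V → Lab)).filter (fun f => Glo n m h g f ∧ b0 ≤ (Bad m f).card ∧
          Rooted (adj n m) (Zs n m ρ) (Dif ρ f) ∧ h * (Dif ρ f).card ≤ 16 * (Bad m f).card),
        θ ^ (Bad m f).card ≤ ε

/-- MAINC. Every matching has a colouring with `r` colours such that `F` together with any colour
class has a perfect matching. -/
def MaincStmt : Prop := ∀ (h lam : ℝ) (r : ℕ), 0 < h → h ≤ 1 → 1 ≤ r →
  10 ^ 5 * (r : ℝ) * (1 + Real.log (r / h)) ≤ lam → ∀ (V : Type) [Fintype V] [DecidableEq V]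
    (n : Equiv.Perm V) (m : V → V), Cub n m → Exp n m h → Lig n m lam →
      ∃ c : V → Fin r, (∀ x, c (m x) = c x) ∧
        ∀ i, PMf (hadj n m (univ.filter fun x => c x = i))

/-- **CYC**. A core contains a cycle. Proof: as GIR (`Pool.Agent.Helper69.FR.gir`): if the graph induced
on `S ⊇ K` were a forest then so would be the graph induced on `K`; a component of it is a tree with
more than one vertex, so it has a vertex of degree one, but every vertex of `K` has two neighbours in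
`K`. -/
def CycStmt : Prop := ∀ (V : Type) [Fintype V] [DecidableEq V] (G : SimpleGraph V)
  [DecidableRel G.Adj] (K S : Finset V), K.Nonempty →
    (∀ x ∈ K, 2 ≤ (K.filter fun y => G.Adj x y).card) → K ⊆ S →
      ¬ (G.induce (S : Set V)).IsAcyclic

/-- The final statement. -/
def FincStmt : Prop := ∀ (h lam : ℝ) (r : ℕ), 0 < h → h ≤ 1 → 1 ≤ r →
  10 ^ 5 * (r : ℝ) * (1 + Real.log (r / h)) ≤ lam → ∀ (V : Type) [Fintype V] [DecidableEq V]
    (G : SimpleGraph V) [DecidableRel G.Adj], G.IsRegularOfDegree 3 →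
    (∀ S : Finset V, 2 * S.card ≤ Fintype.card V →
      h * S.card ≤ ((S ×ˢ Sᶜ).filter fun p => G.Adj p.1 p.2).card) →
    ∀ (M : G.Subgraph) [DecidableRel M.Adj], M.IsPerfectMatching →
      (∀ S : Finset V, ¬ (G.induce (S : Set V)).IsAcyclic →
        ¬ (G.induce ((Sᶜ : Finset V) : Set V)).IsAcyclic →
        ((S ×ˢ Sᶜ).filter fun p => G.Adj p.1 p.2 ∧ ¬ M.Adj p.1 p.2).card ≤ 2 →
          lam ≤ ((S ×ˢ Sᶜ).filter fun p => G.Adj p.1 p.2).card) →
      ∃ N : Fin r → G.Subgraph, (∀ i, (N i).IsPerfectMatching) ∧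
        ∀ i j, i ≠ j → ∀ e : Sym2 V, ¬ (e ∈ M.edgeSet ∧ e ∈ (N i).edgeSet ∧ e ∈ (N j).edgeSet)

end Pool.Agent.Helper38.FRX
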