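import Pool.Agent.Helper55.FR.Main
import Pool.Agent.Helper38.FRX.Goals

/-!
# Fan-Raspaud under a light-cut condition: the colouring of the matching

Adapted from `Pool.Agent.Helper55.FR.Main`.
-/

namespace Pool.Agent.Helper38.FRX

open Finset Pool.Agent.Helper55.FR

/-- A core which is invariant under `n`. -/
theorem core_inv {V : Type} [Fintype V] [DecidableEq V] {n : Equiv.Perm V} {m : V → V}
    (hC : Cub n m) {S : Finset V} (hne : S.Nonempty) (hS : ∀ x, x ∈ S ↔ n x ∈ S) :
    Core n m S := by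
  refine ⟨hne, ?_⟩
  intro x hx
  have hs : n.symm x ∈ S := by
    rw [hS]
    simpa using hx
  have hne' : n x ≠ n.symm x := by
    intro h
    apply hC.nn x
    rw [h]
    simp
  have : ({n x, n.symm x} : Finset V) ⊆ S.filter fun y => adj n m x y := by
    intro y hy
    rw [mem_insert, mem_singleton] at hy
    rw [mem_filter]
    rcases hy with rfl | rfl
    · exact ⟨(hS x).1 hx, Or.inl rfl⟩
    · exact ⟨hs, Or.inr (Or.inl (by simp))⟩
  calc 2 = ({n x, n.symm x} : Finset V).card := (card_pair hne').symm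
    _ ≤ _ := card_le_card this

/-- Unions of circuits of `F` have at least `lam` matching edges leaving. -/
theorem nlig {V : Type} [Fintype V] [DecidableEq V] {n : Equiv.Perm V} {m : V → V} {lam : ℝ}
    (hC : Cub n m) (hL : Lig n m lam) (S : Finset V) (hne : S.Nonempty) (hu : S ≠ univ)
    (hS : ∀ x, x ∈ S ↔ n x ∈ S) : lam ≤ dM m S := by
  have hc : (Sᶜ).Nonempty := by
    by_contra h
    rw [not_nonempty_iff_eq_empty, compl_eq_empty_iff] at h
    exact hu h
  have h0 : dF n S = 0 := by
    unfold dF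
    rw [card_eq_zero, filter_eq_empty_iff]
    intro x hx h
    exact h ((hS x).1 hx)
  have h1 := hL S S Sᶜ (core_inv hC hne hS) (core_inv hC hc (by
    intro x
    rw [mem_compl, mem_compl, hS x])) (Subset.refl _) disjoint_compl_right (by omega)
  rw [h0] at h1
  simpa using h1

theorem VM_flip {V : Type} [Fintype V] (m : V → V) (f : V → Lab) :
    VM m (Pool.Agent.Helper55.FR.flip ∘ f) = VM m f := by
  ext x
  simp only [VM, mem_filter, mem_univ, true_and, Function.comp]
  cases f x <;> cases f (m x) <;> simp [Pool.Agent.Helper55.FR.flip]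

theorem VM_glo {V : Type} [Fintype V] [DecidableEq V] {n : Equiv.Perm V} {m : V → V} {h : ℝ}
    {g : ℕ} {f : V → Lab} (hvmb : VmbStmt) (hC : Cub n m) (hf : Glo n m h g f) :
    (VM m f).card ≤ 7 * (Bad m f).card := by
  have h1 := hvmb V m f hC.mm
  have h2 := hf.cT
  have h3 : (univ.filter fun x => f x ≠ Lab.O ∧ f (m x) = Lab.O).card = 0 := by
    rw [card_eq_zero, filter_eq_empty_iff]
    intro x _ hx
    exact hf.noO _ hx.2
  omega

open Classical in
theorem mainc (hbar : BarcStmt) (hlocb : LocbcStmt) (hlocn : LocncStmt) (hglon : GloncStmt)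
    (hgex : GexcStmt) (href : RefStmt) (hvmb : VmbStmt) (hnum : NumcStmt)
    (hsml : SmlcStmt) (hsmg : SmgcStmt) (hprb : PrbStmt) : MaincStmt := by
  intro h lam r h0 h1 hr hg V _ _ n m hC hE hG
  obtain ⟨L, g, hL1, hhg, hgl, hlg, hl5, hN⟩ := hnum h lam r h0 h1 hr hg
  have hNL := nlig hC hG
  have hNLd : ∀ S : Finset V, S.Nonempty → S ≠ univ → (∀ x, x ∈ S ↔ n x ∈ S) →
      lam ≤ dM m S := hNL
  have hr0 : (1 : ℝ) ≤ (r : ℝ) := by exact_mod_cast hr
  set θ : ℝ := 1 - 1 / (4 * (r : ℝ)) with hθ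
  set ε : ℝ := 1 / (6 * (r : ℝ) ^ 2) with hε
  have hθ0 : 0 < θ := by
    have : 1 / (4 * (r : ℝ)) ≤ 1 / 4 := by
      apply one_div_le_one_div_of_le
      · norm_num
      · linarith
    rw [hθ]
    linarith
  have hθ1 : θ < 1 := by
    have : 0 < 1 / (4 * (r : ℝ)) := by positivity
    rw [hθ]
    linarith
  have hε0 : 0 ≤ ε := by
    rw [hε]
    positivity
  have hpos : ∀ f : V → Lab, h * g ≤ 4 * (Bad m f).card → (Bad m f).Nonempty := by
    intro f hf
    rw [← Finset.card_pos]
    have : (0 : ℝ) < (Bad m f).card := by linarith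
    exact_mod_cast this
  have hinv : ∀ f : V → Lab, ∀ x ∈ Bad m f, m x ∈ Bad m f := by
    intro f x hx
    simp only [Bad, mem_filter, mem_univ, true_and] at hx ⊢
    rw [hC.mm]
    exact bad_symm hx
  -- the local family
  set A1 : Finset (V → Lab) := univ.filter (fun f => LclC n m h g f) with hA1
  -- the global family
  obtain ⟨A2, hA2a, hA2b, hA2c⟩ : ∃ A2 : Finset (V → Lab),
      (∀ f ∈ A2, h * g ≤ 4 * (Bad m f).card) ∧
      (∑ f ∈ A2, θ ^ (Bad m f).card ≤ 2 * ε) ∧
      (∀ B : Finset V, (∀ x, x ∈ B ↔ m x ∈ B) → (∃ T I Q, BarC n m B T I Q) →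
        (∀ T I Q, BarC n m B T I Q → Fintype.card V < 2 * (T.card + I.card)) →
        ∃ f ∈ A2, Disjoint (Bad m f) B) := by
    by_cases hex : ∃ f : V → Lab, Glo n m h g f
    · -- a best global structure
      obtain ⟨f0, hf0, hmin⟩ : ∃ f0 : V → Lab, Glo n m h g f0 ∧
          ∀ f, Glo n m h g f → (Bad m f0).card ≤ (Bad m f).card := by
        obtain ⟨f1, hf1⟩ := hex
        have hne : (univ.filter (fun f : V → Lab => Glo n m h g f)).Nonempty :=
          ⟨f1, by simp [hf1]⟩
        obtain ⟨f0, hf0, hmin⟩ := Finset.exists_min_image _ (fun f => (Bad m f).card) hne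
        refine ⟨f0, (by simpa using hf0), ?_⟩
        intro f hf
        exact hmin f (by simp [hf])
      set P : (V → Lab) → (V → Lab) → Prop := fun ρ f => Glo n m h g f ∧
        (Bad m f0).card ≤ (Bad m f).card ∧ Rooted (adj n m) (Zs n m ρ) (Dif ρ f) ∧
        h * (Dif ρ f).card ≤ 16 * (Bad m f).card with hP
      have hs1 := hsmg V n m h lam g L (Bad m f0).card θ ε f0 hC h0 h1 hhg hL1 hlg hl5 hθ0 hθ1
        hε0 hNLd hN (href V n m h g f0 hf0).1 (VM_glo hvmb hC hf0)
      have hs2 := hsmg V n m h lam g L (Bad m f0).card θ ε (Pool.Agent.Helper55.FR.flip ∘ f0) hC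
        h0 h1 hhg hL1 hlg hl5 hθ0 hθ1 hε0 hNLd hN (href V n m h g f0 hf0).2
        (by rw [VM_flip]; exact VM_glo hvmb hC hf0)
      refine ⟨univ.filter (fun f => P f0 f) ∪ univ.filter (fun f => P (Pool.Agent.Helper55.FR.flip ∘ f0) f), ?_, ?_, ?_⟩
      · intro f hf
        simp only [mem_union, mem_filter, mem_univ, true_and] at hf
        rcases hf with hf | hf
        · exact hf.1.cB
        · exact hf.1.cB
      · have hle : ∑ f ∈ univ.filter (fun f => P f0 f) ∪ univ.filter (fun f => P (Pool.Agent.Helper55.FR.flip ∘ f0) f),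
            θ ^ (Bad m f).card ≤ ∑ f ∈ univ.filter (fun f => P f0 f), θ ^ (Bad m f).card +
              ∑ f ∈ univ.filter (fun f => P (Pool.Agent.Helper55.FR.flip ∘ f0) f), θ ^ (Bad m f).card := by
          rw [← Finset.sum_union_inter]
          have : 0 ≤ ∑ f ∈ univ.filter (fun f => P f0 f) ∩ univ.filter
              (fun f => P (Pool.Agent.Helper55.FR.flip ∘ f0) f), θ ^ (Bad m f).card :=
            Finset.sum_nonneg (fun f _ => by positivity)
          linarith
        have e1 : ∑ f ∈ univ.filter (fun f => P f0 f), θ ^ (Bad m f).card ≤ ε := by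
          convert hs1 using 3
        have e2 : ∑ f ∈ univ.filter (fun f => P (Pool.Agent.Helper55.FR.flip ∘ f0) f), θ ^ (Bad m f).card ≤ ε := by
          convert hs2 using 3
        linarith
      · intro B hB hB1 hB2
        obtain ⟨f, ρ, hρ, hf1, hf2, hf3, hf4⟩ := hgex V n m h lam g f0 B hC h0 h1 hhg hgl hE hG hf0
          hmin hB (fun T I Q hQ => (hlocb V n m B T I Q hC hB hQ).1) hB1 hB2
        refine ⟨f, ?_, hf2⟩
        simp only [mem_union, mem_filter, mem_univ, true_and]
        rcases hρ with rfl | rfl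
        · exact Or.inl ⟨hf1, hmin f hf1, hf3, hf4⟩
        · exact Or.inr ⟨hf1, hmin f hf1, hf3, hf4⟩
    · refine ⟨∅, by simp, ?_, ?_⟩
      · simp only [Finset.sum_empty]
        linarith
      · intro B hB hB1 hB2
        obtain ⟨T, I, Q, hQ⟩ := hB1
        obtain ⟨f, _, hf, _⟩ := hglon V n m h lam g B T I Q hC h0 h1 hhg hgl hE hG hB hQ
          (hlocb V n m B T I Q hC hB hQ).1 (hB2 T I Q hQ)
        exact absurd ⟨f, hf⟩ hex
  -- the colouring
  obtain ⟨c, hc1, hc2⟩ := hprb V m hC.mm hC.mv r hr ((A1 ∪ A2).image (fun f => Bad m f)) (by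
      intro u hu
      simp only [mem_image, mem_union] at hu
      obtain ⟨f, hf, rfl⟩ := hu
      refine ⟨hpos f ?_, hinv f⟩
      rcases hf with hf | hf
      · rw [hA1] at hf
        simp only [mem_filter, mem_univ, true_and] at hf
        exact hf.1.cB
      · exact hA2a f hf) (by
      intro x
      have hle : ∑ u ∈ ((A1 ∪ A2).image (fun f => Bad m f)).filter (fun u => x ∈ u), θ ^ u.card ≤
          ∑ f ∈ (A1 ∪ A2).filter (fun f => x ∈ Bad m f), θ ^ (Bad m f).card := by
        have himg : ((A1 ∪ A2).image (fun f => Bad m f)).filter (fun u => x ∈ u) =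
            ((A1 ∪ A2).filter (fun f => x ∈ Bad m f)).image (fun f => Bad m f) := by
          ext u
          simp only [mem_filter, mem_image]
          constructor
          · rintro ⟨⟨f, hf, rfl⟩, hx⟩
            exact ⟨f, ⟨hf, hx⟩, rfl⟩
          · rintro ⟨f, ⟨hf, hx⟩, rfl⟩
            exact ⟨⟨f, hf, rfl⟩, hx⟩
        rw [himg]
        refine Finset.sum_image_le_of_nonneg ?_
        · intro f _
          positivity
      have hsub : ∑ f ∈ (A1 ∪ A2).filter (fun f => x ∈ Bad m f), θ ^ (Bad m f).card ≤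
          ∑ f ∈ A1.filter (fun f => x ∈ Bad m f), θ ^ (Bad m f).card +
            ∑ f ∈ A2, θ ^ (Bad m f).card := by
        have h1' : ∑ f ∈ (A1 ∪ A2).filter (fun f => x ∈ Bad m f), θ ^ (Bad m f).card ≤
            ∑ f ∈ (A1.filter (fun f => x ∈ Bad m f)) ∪ A2, θ ^ (Bad m f).card := by
          apply Finset.sum_le_sum_of_subset_of_nonneg
          · intro f hf
            simp only [mem_filter, mem_union] at hf ⊢
            rcases hf with ⟨hf | hf, hx⟩
            · exact Or.inl ⟨hf, hx⟩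
            · exact Or.inr hf
          · intro f _ _
            positivity
        have h2' : ∑ f ∈ (A1.filter (fun f => x ∈ Bad m f)) ∪ A2, θ ^ (Bad m f).card ≤
            ∑ f ∈ A1.filter (fun f => x ∈ Bad m f), θ ^ (Bad m f).card +
              ∑ f ∈ A2, θ ^ (Bad m f).card := by
          rw [← Finset.sum_union_inter]
          have : 0 ≤ ∑ f ∈ (A1.filter (fun f => x ∈ Bad m f)) ∩ A2, θ ^ (Bad m f).card :=
            Finset.sum_nonneg (fun f _ => by positivity)
          linarith
        exact h1'.trans h2'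
      have hloc : ∑ f ∈ A1.filter (fun f => x ∈ Bad m f), θ ^ (Bad m f).card ≤ ε := by
        have := hsml V n m h lam g L θ ε hC h0 h1 hhg hL1 hlg hl5 hθ0 hθ1 hε0 hNLd hN x
        rw [hA1, Finset.filter_filter]
        convert this using 3
      have hfin : 3 * ε = 1 / (2 * (r : ℝ) ^ 2) := by
        rw [hε]
        field_simp
        norm_num
      linarith)
  refine ⟨c, hc1, ?_⟩
  intro i
  by_contra hno
  set B : Finset V := univ.filter fun x => c x = i with hB
  have hBinv : ∀ x, x ∈ B ↔ m x ∈ B := by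
    intro x
    simp [hB, hc1]
  have key : ∃ f ∈ A1 ∪ A2, Disjoint (Bad m f) B := by
    have hbarB := hbar V n m B hC hBinv hno
    by_cases hall : ∀ T I Q, BarC n m B T I Q → Fintype.card V < 2 * (T.card + I.card)
    · obtain ⟨f, hf, hd⟩ := hA2c B hBinv hbarB hall
      exact ⟨f, mem_union_right _ hf, hd⟩
    · push Not at hall
      obtain ⟨T, I, Q, hQ, hle⟩ := hall
      obtain ⟨T', I', Q', hQ'⟩ := (hlocb V n m B T I Q hC hBinv hQ).2 hle
      obtain ⟨f, hf, hd⟩ := hlocn V n m h lam g B T' I' Q' hC h0 h1 hhg hgl hE hG hBinv hQ'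
      exact ⟨f, mem_union_left _ (by rw [hA1]; simp [hf]), hd⟩
  obtain ⟨f, hf, hd⟩ := key
  obtain ⟨x, hx1, hx2⟩ := hc2 (Bad m f) (mem_image_of_mem _ hf) i
  exact (Finset.disjoint_left.1 hd hx1) (by simp [hB, hx2])

end Pool.Agent.Helper38.FRX
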